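import Pool.Agent.R441.Num

/-!
The conjectured congruences for `S(p) = ∑_{k<p} (-1)^k binom(-1/4,k)²` fail for `p = 41`.
-/

set_option autoImplicit false

namespace Pool.Agent.Results.MP_17cdb9_nt.FortyOneFails

open Pool.Agent.R441 (CongMod not_congMod)

/-- `binom(a,k) = a (a-1) ⋯ (a-k+1) / k!` -/
def bc (a : ℚ) (k : ℕ) : ℚ := (∏ j ∈ Finset.range k, (a - j)) / k.factorial

/-- `S(p) = ∑_{k<p} (-1)^k binom(-1/4,k)²` -/
def S (p : ℕ) : ℚ := ∑ k ∈ Finset.range p, (-1) ^ k * bc (-1 / 4) k ^ 2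

/-- The congruences of the conjecture for the prime `p` -/
def QOne (p : ℕ) : Prop :=
  (∀ x y : ℤ, (p : ℤ) = x ^ 2 + 2 * y ^ 2 → p % 8 = 1 →
    CongMod p 2 (S p) ((-1 : ℚ) ^ ((x + 1) / 2) * (2 * x - p / (2 * x)))) ∧
  (∀ x y : ℤ, (p : ℤ) = x ^ 2 + 2 * y ^ 2 → p % 8 = 3 →
    CongMod p 2 (S p) ((-1 : ℚ) ^ ((y - 1) / 2) * (4 * y - p / (2 * y)))) ∧
  ((p % 8 = 5 ∨ p % 8 = 7) → CongMod p 1 (S p) 0)

/-- There is an odd prime (namely `41 = 3² + 2·4²`) for which the conjectured congruence fails,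
and for it the opposite sign is the right one. -/
theorem result : ∃ p : ℕ, p = 41 ∧ p.Prime ∧ Odd p ∧ ¬ QOne p ∧
    ∀ x y : ℤ, (p : ℤ) = x ^ 2 + 2 * y ^ 2 →
      ¬ CongMod p 2 (S p) ((-1 : ℚ) ^ ((x + 1) / 2) * (2 * x - p / (2 * x))) ∧
      CongMod p 2 (S p) (-((-1 : ℚ) ^ ((x + 1) / 2) * (2 * x - p / (2 * x)))) := by
  have key : ∀ x y : ℤ, ((41 : ℕ) : ℤ) = x ^ 2 + 2 * y ^ 2 →
      (-1 : ℚ) ^ ((x + 1) / 2) * (2 * x - (41 : ℕ) / (2 * x)) = -5 / 6 := by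
    intro x y h
    have hx : x ^ 2 ≤ 41 := by push_cast at h; nlinarith [sq_nonneg y]
    have hy : y ^ 2 ≤ 20 := by push_cast at h; nlinarith [sq_nonneg x]
    have hx1 : x ≤ 6 := by nlinarith
    have hx2 : -6 ≤ x := by nlinarith
    have hy1 : y ≤ 4 := by nlinarith
    have hy2 : -4 ≤ y := by nlinarith
    have : x = 3 ∨ x = -3 := by
      interval_cases x <;> interval_cases y <;> simp_all
    rcases this with rfl | rfl
    · norm_num
    · norm_num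
  have h2 : ∀ x y : ℤ, ((41 : ℕ) : ℤ) = x ^ 2 + 2 * y ^ 2 →
      ¬ CongMod 41 2 (S 41) ((-1 : ℚ) ^ ((x + 1) / 2) * (2 * x - (41 : ℕ) / (2 * x))) := by
    intro x y h
    rw [key x y h]
    exact not_congMod (by norm_num) (by decide +kernel)
  refine ⟨41, rfl, by norm_num, by decide, ?_, ?_⟩
  · rintro ⟨h, -, -⟩
    exact h2 3 4 (by norm_num) (h 3 4 (by norm_num) (by norm_num))
  · intro x y h
    refine ⟨h2 x y h, ?_⟩
    rw [key x y h]
    refine ⟨(S 41 - -(-5 / 6)) / 41 ^ 2, by decide +kernel, by push_cast; ring⟩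

end Pool.Agent.Results.MP_17cdb9_nt.FortyOneFails
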